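import Mathlib

/-!
Abelian fourfolds, module T8: linear algebra with rotations.
-/

namespace Pool.Agent.Helper7.AFT

open Module

/-- sums over four distinct indices -/
lemma t8_sum {M : Type*} [AddCommMonoid M] {a b c d : Fin 4} (hab : a ≠ b) (hac : a ≠ c)
    (had : a ≠ d) (hbc : b ≠ c) (hbd : b ≠ d) (hcd : c ≠ d) (g : Fin 4 → M) :
    ∑ i, g i = g a + (g b + (g c + g d)) := by
  have h : ({a, b, c, d} : Finset (Fin 4)) = Finset.univ := by
    apply Finset.eq_univ_of_card
    rw [Finset.card_insert_of_notMem, Finset.card_insert_of_notMem,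
      Finset.card_insert_of_notMem, Finset.card_singleton, Fintype.card_fin]
    · simpa using hcd
    · simp only [Finset.mem_insert, Finset.mem_singleton, not_or]; exact ⟨hbc, hbd⟩
    · simp only [Finset.mem_insert, Finset.mem_singleton, not_or]; exact ⟨hab, hac, had⟩
  rw [← h, Finset.sum_insert, Finset.sum_insert, Finset.sum_insert, Finset.sum_singleton]
  · simpa using hcd
  · simp only [Finset.mem_insert, Finset.mem_singleton, not_or]; exact ⟨hbc, hbd⟩
  · simp only [Finset.mem_insert, Finset.mem_singleton, not_or]; exact ⟨hab, hac, had⟩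

/-- the numerical core -/
lemma t8_core (A : Fin 4 → Fin 4 → Fin 4 → Fin 4 → ℂ) (l : Fin 4 → ℂ) (hl : l ≠ 0)
    (h12 : ∀ i j k m, A j i k m = - A i j k m) (h34 : ∀ i j k m, A i j m k = - A i j k m)
    (hrel : ∀ x y, x ≠ y → ∀ i j k m,
      (if i = x then - A y j k m else if i = y then A x j k m else 0) +
      (if j = x then - A i y k m else if j = y then A i x k m else 0) +
      (if k = x then - A i j y m else if k = y then A i j x m else 0) +
      (if m = x then - A i j k y else if m = y then A i j k x else 0) = 0)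
    (hstar : ∀ v h h' : Fin 4 → ℂ, ∑ i, l i * h i = 0 → ∑ i, l i * h' i = 0 →
      ∑ i, l i * ∑ j, v j * ∑ k, h k * ∑ m, h' m * A i j k m = 0)
    (i j k m : Fin 4) (hij : i ≠ j) (hik : i ≠ k) (him : i ≠ m) (hjk : j ≠ k) (hjm : j ≠ m)
    (hkm : k ≠ m) : A i j k m = 0 := by
  have van : ∀ i d k m a, a ≠ d → a ≠ i → a ≠ k → a ≠ m → d ≠ i → d ≠ k → d ≠ m →
      A i d k m = 0 := by
    intro i d k m a had hai hak ham hdi hdk hdm
    have := hrel a d had i a k m
    simp only [if_neg hai.symm, if_neg hdi.symm, if_true, if_neg hak.symm, if_neg hdk.symm,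
      if_neg ham.symm, if_neg hdm.symm] at this
    simpa using this
  have z12 : ∀ i k m, A i i k m = 0 := by
    intro i k m
    have := h12 i i k m
    linear_combination (1 / 2 : ℂ) * this
  have z34 : ∀ i j k, A i j k k = 0 := by
    intro i j k
    have := h34 i j k k
    linear_combination (1 / 2 : ℂ) * this
  have r14 : ∀ a d b c, a ≠ d → a ≠ b → a ≠ c → d ≠ b → d ≠ c → b ≠ c →
      A a d b c + A c d b a = 0 := by
    intro a d b c had hab hac hdb hdc hbc
    have := hrel a c hac c d b c
    simp only [if_neg hac.symm, if_true, if_neg had.symm, if_neg hdc, if_neg hab.symm,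
      if_neg hbc] at this
    linear_combination this
  have r13 : ∀ a d b c, a ≠ d → a ≠ b → a ≠ c → d ≠ b → d ≠ c → b ≠ c →
      A a d b c + A b d a c = 0 := by
    intro a d b c had hab hac hdb hdc hbc
    have := hrel a b hab b d b c
    simp only [if_neg hab.symm, if_true, if_neg had.symm, if_neg hdb, if_neg hac.symm,
      if_neg hbc.symm] at this
    linear_combination this
  have hmain : ∀ a d b c, a ≠ d → a ≠ b → a ≠ c → d ≠ b → d ≠ c → b ≠ c →
      A a d b c * (l a * (l a ^ 2 + l b ^ 2 + l c ^ 2)) = 0 := by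
    intro a d b c had hab hac hdb hdc hbc
    have hs : ∀ g : Fin 4 → ℂ, ∑ i, g i = g a + (g b + (g c + g d)) :=
      t8_sum hab hac had hbc hdb.symm hdc.symm
    have := hstar (fun x => if x = d then 1 else 0)
      (fun x => if x = b then l a else if x = a then - l b else 0)
      (fun x => if x = c then l a else if x = a then - l c else 0)
      (by simp only [hs, if_true, if_neg hab, if_neg hac.symm, if_neg hbc.symm, if_neg hdb,
            if_neg had.symm]; ring)
      (by simp only [hs, if_true, if_neg hac, if_neg hab.symm, if_neg hbc, if_neg hdc,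
            if_neg had.symm]; ring)
    simp only [hs, if_true, if_neg had, if_neg hab, if_neg hac, if_neg had.symm, if_neg hab.symm,
      if_neg hac.symm, if_neg hbc, if_neg hbc.symm, if_neg hdb, if_neg hdb.symm, if_neg hdc,
      if_neg hdc.symm, z12, z34] at this
    rw [van b d b c a had hab hab hac hdb hdb hdc, van c d b c a had hac hab hac hdc hdb hdc,
      van a d b a c hdc.symm hac.symm hbc.symm hac.symm had.symm hdb had.symm,
      van b d b a c hdc.symm hbc.symm hbc.symm hac.symm hdb hdb had.symm,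
      van a d a c b hdb.symm hab.symm hab.symm hbc had.symm had.symm hdc,
      van c d a c b hdb.symm hbc hab.symm hbc hdc had.symm hdc] at this
    have e1 := r14 a d b c had hab hac hdb hdc hbc
    have e2 := r13 a d b c had hab hac hdb hdc hbc
    linear_combination this + l a * l c ^ 2 * e1 + l a * l b ^ 2 * e2
  have key : ∀ i j k m, i ≠ j → i ≠ k → i ≠ m → j ≠ k → j ≠ m → k ≠ m →
      A i j k m ≠ 0 → l i = 0 := by
    intro i j k m hij hik him hjk hjm hkm hA
    by_contra hli
    have a1 : A j i k m ≠ 0 := by rw [h12 i j]; exact neg_ne_zero.2 hA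
    have a2 : A k i j m ≠ 0 := by
      have := r13 j i k m hij.symm hjk hjm hik him hkm
      intro h; rw [h, add_zero] at this; exact a1 this
    have a3 : A i k j m ≠ 0 := by rw [h12 k i]; exact neg_ne_zero.2 a2
    have a4 : A m i k j ≠ 0 := by
      have := r14 j i k m hij.symm hjk hjm hik him hkm
      intro h; rw [h, add_zero] at this; exact a1 this
    have a5 : A i m k j ≠ 0 := by rw [h12 m i]; exact neg_ne_zero.2 a4
    have b1 := (mul_eq_zero.1 (hmain i j k m hij hik him hjk hjm hkm)).resolve_left hA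
    have b2 := (mul_eq_zero.1 (hmain i k j m hik hij him hjk.symm hkm hjm)).resolve_left a3
    have b3 := (mul_eq_zero.1 (hmain i m k j him hik hij hkm.symm hjm.symm hjk.symm)).resolve_left
      a5
    have b4 := (mul_eq_zero.1 (hmain j i k m hij.symm hjk hjm hik him hkm)).resolve_left a1
    have c1 := (mul_eq_zero.1 b1).resolve_left hli
    have c2 := (mul_eq_zero.1 b2).resolve_left hli
    have c3 := (mul_eq_zero.1 b3).resolve_left hli
    have hi2 : l i ^ 2 ≠ 0 := pow_ne_zero 2 hli
    have ht : l j ^ 2 ≠ 0 := by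
      intro h
      apply hi2
      linear_combination (-1 : ℂ) * c1 + c2 + c3 - 2 * h
    have hlj : l j ≠ 0 := fun h => ht (by rw [h]; ring)
    have c4 := (mul_eq_zero.1 b4).resolve_left hlj
    apply hi2
    linear_combination c1 + (1 / 3 : ℂ) * (c2 + c3 - 2 * c1) - (2 / 3 : ℂ) * c4
  by_contra hA
  apply hl
  have a1 : A j i k m ≠ 0 := by rw [h12 i j]; exact neg_ne_zero.2 hA
  have a2 : A k j i m ≠ 0 := by
    have := r13 i j k m hij hik him hjk hjm hkm
    intro h; rw [h, add_zero] at this; exact hA this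
  have a3 : A m j k i ≠ 0 := by
    have := r14 i j k m hij hik him hjk hjm hkm
    intro h; rw [h, add_zero] at this; exact hA this
  have hi := key i j k m hij hik him hjk hjm hkm hA
  have hj := key j i k m hij.symm hjk hjm hik him hkm a1
  have hk := key k j i m hjk.symm hik.symm hkm hij.symm hjm him a2
  have hm := key m j k i hjm.symm hkm.symm him.symm hjk hij.symm hik.symm a3
  have hcov : ∀ x : Fin 4, x = i ∨ x = j ∨ x = k ∨ x = m := by
    intro x
    have h : ({i, j, k, m} : Finset (Fin 4)) = Finset.univ := by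
      apply Finset.eq_univ_of_card
      rw [Finset.card_insert_of_notMem, Finset.card_insert_of_notMem,
        Finset.card_insert_of_notMem, Finset.card_singleton, Fintype.card_fin]
      · simpa using hkm
      · simp only [Finset.mem_insert, Finset.mem_singleton, not_or]; exact ⟨hjk, hjm⟩
      · simp only [Finset.mem_insert, Finset.mem_singleton, not_or]; exact ⟨hij, hik, him⟩
    have hx : x ∈ ({i, j, k, m} : Finset (Fin 4)) := by rw [h]; exact Finset.mem_univ x
    simpa using hx
  funext x
  rcases hcov x with rfl | rfl | rfl | rfl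
  · exact hi
  · exact hj
  · exact hk
  · exact hm

theorem odd_zero {Φ W : Type} [DecidableEq Φ] [AddCommGroup W] [Module ℂ W]
    (b : Basis (Φ × Fin 4 × Bool) ℂ W) (R : Φ → Fin 4 → Fin 4 → Module.End ℂ W)
    (hR : ∀ s i j, i ≠ j → ∀ (t : Φ) (l : Fin 4) (ε : Bool), R s i j (b (t, l, ε)) =
      if t = s ∧ l = i then - b (s, j, ε) else if t = s ∧ l = j then b (s, i, ε) else 0)
    (α : W [⋀^Fin (2 * 2)]→ₗ[ℂ] ℂ)
    (hα : ∀ s i j, i ≠ j → ∀ v : Fin (2 * 2) → W,
      ∑ r, α (Function.update v r (R s i j (v r))) = 0) (q : Φ) (ε : Bool)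
    (l : Fin 4 → ℂ) (hl : l ≠ 0)
    (hstar : ∀ v h h' : Fin 4 → ℂ, ∑ i, l i * h i = 0 → ∑ i, l i * h' i = 0 →
      α ![∑ i, l i • b (q, i, ε), ∑ i, v i • b (q, i, ε), ∑ i, h i • b (q, i, !ε),
        ∑ i, h' i • b (q, i, !ε)] = 0)
    (i j k m : Fin 4) (hij : i ≠ j) (hik : i ≠ k) (him : i ≠ m) (hjk : j ≠ k) (hjm : j ≠ m)
    (hkm : k ≠ m) :
    α ![b (q, i, ε), b (q, j, ε), b (q, k, !ε), b (q, m, !ε)] = 0 := by
  -- updates of four vectors
  have u0 : ∀ x y z w x' : W, Function.update (![x, y, z, w] : Fin (2 * 2) → W) 0 x' =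
      ![x', y, z, w] := by
    intro x y z w x'; funext r
    fin_cases r <;> rfl
  have u1 : ∀ x y z w x' : W, Function.update (![x, y, z, w] : Fin (2 * 2) → W) 1 x' =
      ![x, x', z, w] := by
    intro x y z w x'; funext r
    fin_cases r <;> rfl
  have u2 : ∀ x y z w x' : W, Function.update (![x, y, z, w] : Fin (2 * 2) → W) 2 x' =
      ![x, y, x', w] := by
    intro x y z w x'; funext r
    fin_cases r <;> rfl
  have u3 : ∀ x y z w x' : W, Function.update (![x, y, z, w] : Fin (2 * 2) → W) 3 x' =
      ![x, y, z, x'] := by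
    intro x y z w x'; funext r
    fin_cases r <;> rfl
  -- linearity in a slot
  have lin : ∀ (v : Fin (2 * 2) → W) (r : Fin (2 * 2)) (g : Fin 4 → ℂ) (u : Fin 4 → W),
      α (Function.update v r (∑ i, g i • u i)) = ∑ i, g i * α (Function.update v r (u i)) := by
    intro v r g u
    have := map_sum (α.toMultilinearMap.toLinearMap v r) (fun i => g i • u i) Finset.univ
    simp only [MultilinearMap.toLinearMap_apply, map_smul, smul_eq_mul] at this
    exact this
  have n0 : ∀ y z w x' : W, α ![-x', y, z, w] = - α ![x', y, z, w] := by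
    intro y z w x'
    rw [← u0 0 y z w (-x'), ← u0 0 y z w x']
    exact α.map_update_neg _ _ _
  have n1 : ∀ x z w x' : W, α ![x, -x', z, w] = - α ![x, x', z, w] := by
    intro x z w x'
    rw [← u1 x 0 z w (-x'), ← u1 x 0 z w x']
    exact α.map_update_neg _ _ _
  have n2 : ∀ x y w x' : W, α ![x, y, -x', w] = - α ![x, y, x', w] := by
    intro x y w x'
    rw [← u2 x y 0 w (-x'), ← u2 x y 0 w x']
    exact α.map_update_neg _ _ _
  have n3 : ∀ x y z x' : W, α ![x, y, z, -x'] = - α ![x, y, z, x'] := by
    intro x y z x'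
    rw [← u3 x y z 0 (-x'), ← u3 x y z 0 x']
    exact α.map_update_neg _ _ _
  have L0 : ∀ (g : Fin 4 → ℂ) (u : Fin 4 → W) (y z w : W),
      α ![∑ i, g i • u i, y, z, w] = ∑ i, g i * α ![u i, y, z, w] := by
    intro g u y z w
    have := lin ![0, y, z, w] 0 g u
    simpa only [u0] using this
  have L1 : ∀ (g : Fin 4 → ℂ) (u : Fin 4 → W) (x z w : W),
      α ![x, ∑ i, g i • u i, z, w] = ∑ i, g i * α ![x, u i, z, w] := by
    intro g u x z w
    have := lin ![x, 0, z, w] 1 g u
    simpa only [u1] using this
  have L2 : ∀ (g : Fin 4 → ℂ) (u : Fin 4 → W) (x y w : W),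
      α ![x, y, ∑ i, g i • u i, w] = ∑ i, g i * α ![x, y, u i, w] := by
    intro g u x y w
    have := lin ![x, y, 0, w] 2 g u
    simpa only [u2] using this
  have L3 : ∀ (g : Fin 4 → ℂ) (u : Fin 4 → W) (x y z : W),
      α ![x, y, z, ∑ i, g i • u i] = ∑ i, g i * α ![x, y, z, u i] := by
    intro g u x y z
    have := lin ![x, y, z, 0] 3 g u
    simpa only [u3] using this
  have h4 : ∀ g : Fin (2 * 2) → ℂ, ∑ r, g r = g 0 + g 1 + g 2 + g 3 :=
    fun g => Fin.sum_univ_four g
  refine t8_core (fun i j k m => α ![b (q, i, ε), b (q, j, ε), b (q, k, !ε), b (q, m, !ε)]) l hl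
    ?_ ?_ ?_ ?_ i j k m hij hik him hjk hjm hkm
  · intro i j k m
    have := α.map_swap ![b (q, i, ε), b (q, j, ε), b (q, k, !ε), b (q, m, !ε)]
      (show (0 : Fin (2 * 2)) ≠ 1 by decide)
    rw [← this]
    congr 1
    funext r
    fin_cases r <;> rfl
  · intro i j k m
    have := α.map_swap ![b (q, i, ε), b (q, j, ε), b (q, k, !ε), b (q, m, !ε)]
      (show (2 : Fin (2 * 2)) ≠ 3 by decide)
    rw [← this]
    congr 1
    funext r
    fin_cases r <;> rfl
  · intro x y hxy i j k m
    have hslot : ∀ (i : Fin 4) (δ : Bool), R q x y (b (q, i, δ)) =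
        if i = x then - b (q, y, δ) else if i = y then b (q, x, δ) else 0 := by
      intro i δ
      rw [hR q x y hxy q i δ]
      simp only [true_and]
    have h := hα q x y hxy ![b (q, i, ε), b (q, j, ε), b (q, k, !ε), b (q, m, !ε)]
    rw [h4] at h
    change α (Function.update _ 0 (R q x y (b (q, i, ε)))) +
      α (Function.update _ 1 (R q x y (b (q, j, ε)))) +
      α (Function.update _ 2 (R q x y (b (q, k, !ε)))) +
      α (Function.update _ 3 (R q x y (b (q, m, !ε)))) = 0 at h
    rw [u0, u1, u2, u3, hslot, hslot, hslot, hslot] at h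
    have zz : ∀ (v : Fin (2 * 2) → W) (r : Fin (2 * 2)), v r = 0 → α v = 0 :=
      fun v r hv => α.map_coord_zero r hv
    have z0 : ∀ y z w : W, α ![0, y, z, w] = 0 := fun y z w => zz ![0, y, z, w] 0 rfl
    have z1 : ∀ x z w : W, α ![x, 0, z, w] = 0 := fun x z w => zz ![x, 0, z, w] 1 rfl
    have z2 : ∀ x y w : W, α ![x, y, 0, w] = 0 := fun x y w => zz ![x, y, 0, w] 2 rfl
    have z3 : ∀ x y z : W, α ![x, y, z, 0] = 0 := fun x y z => zz ![x, y, z, 0] 3 rfl
    have s0 : ∀ (u u' y z w : W) (P Q : Prop) [Decidable P] [Decidable Q],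
        α ![if P then - u else if Q then u' else 0, y, z, w] =
          if P then - α ![u, y, z, w] else if Q then α ![u', y, z, w] else 0 := by
      intro u u' y z w P Q _ _
      split_ifs
      · exact n0 _ _ _ _
      · rfl
      · exact z0 _ _ _
    have s1 : ∀ (u u' x z w : W) (P Q : Prop) [Decidable P] [Decidable Q],
        α ![x, if P then - u else if Q then u' else 0, z, w] =
          if P then - α ![x, u, z, w] else if Q then α ![x, u', z, w] else 0 := by
      intro u u' x z w P Q _ _
      split_ifs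
      · exact n1 _ _ _ _
      · rfl
      · exact z1 _ _ _
    have s2 : ∀ (u u' x y w : W) (P Q : Prop) [Decidable P] [Decidable Q],
        α ![x, y, if P then - u else if Q then u' else 0, w] =
          if P then - α ![x, y, u, w] else if Q then α ![x, y, u', w] else 0 := by
      intro u u' x y w P Q _ _
      split_ifs
      · exact n2 _ _ _ _
      · rfl
      · exact z2 _ _ _
    have s3 : ∀ (u u' x y z : W) (P Q : Prop) [Decidable P] [Decidable Q],
        α ![x, y, z, if P then - u else if Q then u' else 0] =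
          if P then - α ![x, y, z, u] else if Q then α ![x, y, z, u'] else 0 := by
      intro u u' x y z P Q _ _
      split_ifs
      · exact n3 _ _ _ _
      · rfl
      · exact z3 _ _ _
    rw [s0, s1, s2, s3] at h
    exact h
  · intro v h h' h1 h2
    have := hstar v h h' h1 h2
    rw [L0] at this
    simp only [L1, L2, L3] at this
    exact this

end Pool.Agent.Helper7.AFT
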